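import Pool.Agent.Helper18.KD.Mass

/-!
# Project LD, block D: dimension of homogeneous nested families
-/

set_option autoImplicit false

namespace Pool.Agent.Helper89.LD

open Set MeasureTheory Filter Topology Pool.Agent.Helper78.KD Pool.Agent.Helper18.KD

/-- quantiles of one cell -/
theorem vol_idx' {T : Tr} {m : ℕ → ℕ → ℝ} (hm0 : m 0 0 = 1)
    (hsum : ∀ k i, i < T.N k → ∑ j ∈ T.ch k i, m (k + 1) j = m k i) (k i : ℕ) :
    volume {w : ℝ | w ∈ Ico (0 : ℝ) 1 ∧ idx T m k w = i} ≤ ENNReal.ofReal (m k i) := by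
  have h1 : {w : ℝ | w ∈ Ico (0 : ℝ) 1 ∧ idx T m k w = i} ⊆ Ico (cum m k i) (cum m k (i + 1)) := by
    rintro w ⟨hw, rfl⟩
    exact ⟨idx_le k hw.1, lt_idx hm0 hsum k hw.2⟩
  refine (measure_mono h1).trans ?_
  rw [Real.volume_Ico, cum_succ, add_sub_cancel_left]

/-- the measure of an interval -/
theorem int_le' {T : Tr} {m : ℕ → ℕ → ℝ} (hm0 : m 0 0 = 1) (hm : ∀ k i, i < T.N k → 0 ≤ m k i)
    (hsum : ∀ k i, i < T.N k → ∑ j ∈ T.ch k i, m (k + 1) j = m k i) (k : ℕ) {δ c : ℝ} (hδ : 0 ≤ δ) (hc : 0 ≤ c)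
    (hhi : ∀ i, i < T.N k → T.len k i ≤ δ) (hgood : ∀ i, i < T.N k → m k i ≤ c * T.len k i)
    {α β : ℝ} (hαβ : α ≤ β) :
    volume (Ico (0 : ℝ) 1 ∩ pt T m ⁻¹' Icc α β) ≤ ENNReal.ofReal (c * ((β - α) + 2 * δ)) := by
  classical
  set A := (Finset.range (T.N k)).filter (fun i => T.t k i ≤ β ∧ α ≤ T.t k (i + 1)) with hA
  have h1 : Ico (0 : ℝ) 1 ∩ pt T m ⁻¹' Icc α β ⊆ ⋃ i ∈ A, {w : ℝ | w ∈ Ico (0 : ℝ) 1 ∧ idx T m k w = i} := by
    rintro w ⟨hw, hx⟩
    simp only [Set.mem_iUnion]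
    have h2 := pt_mem hm0 hm hsum k hw.1 hw.2
    refine ⟨idx T m k w, ?_, hw, rfl⟩
    rw [hA, Finset.mem_filter, Finset.mem_range]
    exact ⟨idx_lt k w, h2.1.trans hx.2, hx.1.trans h2.2⟩
  refine (measure_mono h1).trans ((measure_biUnion_finset_le _ _).trans ?_)
  refine (Finset.sum_le_sum fun i _ => vol_idx' hm0 hsum k i).trans ?_
  rw [← ENNReal.ofReal_sum_of_nonneg fun i hi => hm _ i (Finset.mem_range.1 (Finset.mem_filter.1 hi).1)]
  apply ENNReal.ofReal_le_ofReal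
  have h3 := len_meet T k hαβ hδ hhi
  rw [← hA] at h3
  calc ∑ i ∈ A, m k i ≤ ∑ i ∈ A, c * T.len k i :=
        Finset.sum_le_sum fun i hi => hgood i (Finset.mem_range.1 (Finset.mem_filter.1 hi).1)
    _ = c * ∑ i ∈ A, T.len k i := by rw [Finset.mul_sum]
    _ ≤ _ := mul_le_mul_of_nonneg_left h3 hc

/-- a set of quantiles with mass zero is not hit -/
theorem mass_pos {T : Tr} {m : ℕ → ℕ → ℝ} (hm0 : m 0 0 = 1)
    (hsum : ∀ k i, i < T.N k → ∑ j ∈ T.ch k i, m (k + 1) j = m k i) (k : ℕ) {w : ℝ} (hw0 : 0 ≤ w) (hw : w < 1) :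
    0 < m k (idx T m k w) := by
  have h1 := idx_le (T := T) (m := m) k hw0
  have h2 := lt_idx hm0 hsum k hw
  rw [cum_succ] at h2
  linarith

/-- mass distribution with lengths of general decay -/
theorem mass_dist (T : Tr) (m : ℕ → ℕ → ℝ) (hm0 : m 0 0 = 1) (hm : ∀ k i, i < T.N k → 0 ≤ m k i)
    (hsum : ∀ k i, i < T.N k → ∑ j ∈ T.ch k i, m (k + 1) j = m k i) (ℓ : ℕ → ℝ) (hℓ : ∀ k, 0 < ℓ k)
    (hlen : ∀ k i, i < T.N k → T.len k i = ℓ k) (hℓt : Tendsto ℓ atTop (𝓝 0)) (q : ℕ → ℝ) (hq : ∀ k, 0 ≤ q k)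
    (hmass : ∀ k i, i < T.N k → m k i ≤ q k * ℓ k) {s C : ℝ} (hs : 0 < s) (hs1 : s < 1)
    (hC : ∀ k, q (k + 1) * ℓ k ^ (1 - s) ≤ C) (E : Set ℝ)
    (hE : ∀ w : ℝ, 0 ≤ w → w < 1 → pt T m w ∈ E) : ENNReal.ofReal s ≤ dimH E := by
  set C' : ℝ := max C 1 with hC'
  have hC'0 : 0 < C' := lt_of_lt_of_le one_pos (le_max_right _ _)
  have hCC : ∀ k, q (k + 1) * ℓ k ^ (1 - s) ≤ C' := fun k => (hC k).trans (le_max_left _ _)
  set X := pt T m with hX
  have hXm : Measurable X := pt_mono.measurable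
  set ν : Measure ℝ := (volume.restrict (Ico (0 : ℝ) 1)).map X with hν
  have hνIcc : ∀ α β : ℝ, ν (Icc α β) = volume (Ico (0 : ℝ) 1 ∩ X ⁻¹' Icc α β) := by
    intro α β
    rw [hν, Measure.map_apply hXm measurableSet_Icc, Measure.restrict_apply (hXm measurableSet_Icc), Set.inter_comm]
  have hint : ∀ k (α β : ℝ), α ≤ β → ν (Icc α β) ≤ ENNReal.ofReal (q k * ((β - α) + 2 * ℓ k)) := by
    intro k α β h
    rw [hνIcc]
    exact int_le' hm0 hm hsum k (hℓ k).le (hq k) (fun i hi => (hlen k i hi).le)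
      (fun i hi => by rw [hlen k i hi]; exact hmass k i hi) h
  -- Frostman bound for intervals
  have hfr : ∀ α β : ℝ, α < β → β - α < ℓ 0 → ν (Icc α β) ≤ ENNReal.ofReal (3 * C' * (β - α) ^ s) := by
    intro α β hαβ hle
    set δ := β - α with hδ
    have hδ0 : 0 < δ := by rw [hδ]; linarith
    obtain ⟨k, hk1, hk2⟩ : ∃ k, ℓ (k + 1) ≤ δ ∧ δ < ℓ k := by
      classical
      have hex : ∃ k, ℓ k ≤ δ := by
        obtain ⟨k, hk⟩ := (hℓt.eventually (gt_mem_nhds hδ0)).exists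
        exact ⟨k, hk.le⟩
      have h1 := Nat.find_spec hex
      have h2 : Nat.find hex ≠ 0 := by
        intro h0
        rw [h0] at h1
        linarith
      obtain ⟨k, hk⟩ := Nat.exists_eq_succ_of_ne_zero h2
      refine ⟨k, by rw [hk] at h1; exact h1, ?_⟩
      have := Nat.find_min hex (show k < Nat.find hex by omega)
      exact not_le.1 this
    refine (hint (k + 1) α β hαβ.le).trans (ENNReal.ofReal_le_ofReal ?_)
    have h3 : q (k + 1) * (δ + 2 * ℓ (k + 1)) ≤ q (k + 1) * (3 * δ) :=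
      mul_le_mul_of_nonneg_left (by linarith) (hq _)
    have h4 : δ ^ (1 - s) ≤ ℓ k ^ (1 - s) := Real.rpow_le_rpow hδ0.le hk2.le (by linarith)
    have h5 : δ = δ ^ s * δ ^ (1 - s) := by
      rw [← Real.rpow_add hδ0]
      simp
    calc q (k + 1) * (δ + 2 * ℓ (k + 1)) ≤ q (k + 1) * (3 * δ) := h3
      _ = 3 * δ ^ s * (q (k + 1) * δ ^ (1 - s)) := by
          conv_lhs => rw [h5]
          ring
      _ ≤ 3 * δ ^ s * C' := by
          refine mul_le_mul_of_nonneg_left ?_ (by positivity)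
          exact (mul_le_mul_of_nonneg_left h4 (hq _)).trans (hCC k)
      _ = 3 * C' * δ ^ s := by ring
  -- points
  have hpt : ∀ x : ℝ, ν {x} = 0 := by
    intro x
    have h1 : ∀ r : ℝ, 0 < r → r < ℓ 0 → ν {x} ≤ ENNReal.ofReal (3 * C' * r ^ s) := by
      intro r hr hr0
      have h2 := hfr x (x + r) (by linarith) (by linarith)
      rw [add_sub_cancel_left] at h2
      refine (measure_mono ?_).trans h2
      rw [Set.singleton_subset_iff]
      exact ⟨le_rfl, by linarith⟩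
    have h4 : Tendsto (fun r : ℝ => ENNReal.ofReal (3 * C' * r ^ s)) (𝓝[>] 0) (𝓝 0) := by
      have h5 : Tendsto (fun r : ℝ => 3 * C' * r ^ s) (𝓝[>] 0) (𝓝 (3 * C' * 0 ^ s)) := by
        apply Tendsto.mono_left _ nhdsWithin_le_nhds
        exact (((Real.continuous_rpow_const hs.le).tendsto 0).const_mul _)
      rw [Real.zero_rpow hs.ne', mul_zero] at h5
      rw [← ENNReal.ofReal_zero]
      exact ENNReal.tendsto_ofReal h5
    refine le_antisymm (ge_of_tendsto h4 ?_) zero_le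
    filter_upwards [Ioo_mem_nhdsGT (hℓ 0)] with r hr
    exact h1 r hr.1 hr.2
  -- the comparison with the Hausdorff measure
  set c : ENNReal := ENNReal.ofReal (3 * C') with hc
  have hc0 : c ≠ 0 := by
    rw [hc, Ne, ENNReal.ofReal_eq_zero, not_le]
    positivity
  have hct : c ≠ ⊤ := ENNReal.ofReal_ne_top
  have hle : c⁻¹ • ν ≤ Measure.hausdorffMeasure s := by
    refine Measure.le_hausdorffMeasure _ _ (ENNReal.ofReal (ℓ 0 / 2)) (ENNReal.ofReal_pos.2 (half_pos (hℓ 0))) fun t ht => ?_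
    rw [Measure.smul_apply, smul_eq_mul, ENNReal.inv_mul_le_iff hc0 hct]
    rcases t.eq_empty_or_nonempty with he | hne
    · rw [he, measure_empty]
      exact zero_le
    have htop : Metric.ediam t ≠ ⊤ := ne_top_of_le_ne_top ENNReal.ofReal_ne_top ht
    have hbd : Bornology.IsBounded t := Metric.isBounded_iff_ediam_ne_top.2 htop
    obtain ⟨x, hx⟩ := hne
    have hsub : t ⊆ Icc (sInf t) (sSup t) := fun y hy => ⟨csInf_le hbd.bddBelow hy, le_csSup hbd.bddAbove hy⟩
    have hdiam : Metric.ediam t = ENNReal.ofReal (sSup t - sInf t) := by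
      rw [← ENNReal.ofReal_toReal htop]
      congr 1
      exact Real.diam_eq hbd
    have hle2 : sInf t ≤ sSup t := (hsub hx).1.trans (hsub hx).2
    rcases hle2.eq_or_lt with h | h
    · have h1 : t ⊆ {x} := by
        intro y hy
        have h2 := hsub hy
        have h3 := hsub hx
        rw [Set.mem_singleton_iff]
        rw [← h] at h2 h3
        linarith [h2.1, h2.2, h3.1, h3.2]
      rw [measure_mono_null h1 (hpt x)]
      exact zero_le
    · refine (measure_mono hsub).trans ?_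
      have hr : sSup t - sInf t ≤ ℓ 0 / 2 := by
        rw [hdiam] at ht
        exact (ENNReal.ofReal_le_ofReal_iff (half_pos (hℓ 0)).le).1 ht
      refine (hfr _ _ h (by linarith [hℓ 0])).trans (le_of_eq ?_)
      rw [hdiam, hc, ENNReal.ofReal_rpow_of_pos (by linarith), ← ENNReal.ofReal_mul (by positivity)]
  -- positivity
  have hνE : ν E ≠ 0 := by
    intro h0
    rw [← measure_toMeasurable] at h0
    rw [hν, Measure.map_apply hXm (measurableSet_toMeasurable _ _), Measure.restrict_apply (hXm (measurableSet_toMeasurable _ _))] at h0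
    have hsub : Ico (0 : ℝ) 1 ⊆ X ⁻¹' toMeasurable ν E ∩ Ico (0 : ℝ) 1 := by
      intro w hw
      exact ⟨subset_toMeasurable _ _ (hE w hw.1 hw.2), hw⟩
    have := measure_mono_null hsub h0
    rw [Real.volume_Ico, sub_zero, ENNReal.ofReal_one] at this
    exact one_ne_zero this
  have hH : Measure.hausdorffMeasure s E ≠ 0 := by
    intro h0
    have h1 := hle E
    rw [h0, Measure.smul_apply, smul_eq_mul, nonpos_iff_eq_zero, mul_eq_zero] at h1
    rcases h1 with h1 | h1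
    · exact hct (ENNReal.inv_eq_zero.1 h1)
    · exact hνE h1
  have hcoe : ((s.toNNReal : NNReal) : ℝ) = s := Real.coe_toNNReal _ hs.le
  rw [← hcoe] at hH
  exact le_dimH_of_hausdorffMeasure_ne_zero hH

/-- the number of cells -/
def NN (B : ℕ → ℕ) (k : ℕ) : ℕ := ∏ j ∈ Finset.range k, B j

theorem NN_succ (B : ℕ → ℕ) (k : ℕ) : NN B (k + 1) = NN B k * B k := Finset.prod_range_succ _ _

/-- the partitions into equal cells -/
def trU (B : ℕ → ℕ) (ℓ : ℕ → ℝ) (a₀ : ℝ) (hB : ∀ k, 1 ≤ B k) (hpos : ∀ k, 0 < ℓ k) (hℓ : ∀ k, ℓ k = ℓ (k + 1) * B k) : Tr where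
  N := NN B
  t k i := a₀ + i * ℓ k
  J k i := i * B k
  hN := by simp [NN]
  lt k i _ := by
    have := hpos k
    push_cast
    linarith
  J0 k := by simp
  JN k := (NN_succ B k).symm
  Jlt k i _ := by
    have := hB k
    rw [Nat.succ_mul]
    omega
  ref k i _ := by
    rw [hℓ k]
    push_cast
    ring

open Classical in
/-- the masses: uniform on chosen children -/
noncomputable def mU (B g : ℕ → ℕ) (Sel : ℕ → ℕ → Finset ℕ) : ℕ → ℕ → ℝ
  | 0, i => if i = 0 then 1 else 0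
  | k + 1, j => if j % B k ∈ Sel k (j / B k) then mU B g Sel k (j / B k) / g k else 0

theorem mU_nonneg (B g : ℕ → ℕ) (Sel : ℕ → ℕ → Finset ℕ) (k i : ℕ) : 0 ≤ mU B g Sel k i := by
  induction k generalizing i with
  | zero => rw [mU]; split_ifs <;> norm_num
  | succ k ih =>
    rw [mU]
    split_ifs
    · exact div_nonneg (ih _) (Nat.cast_nonneg _)
    · exact le_rfl

theorem mU_sum (B g : ℕ → ℕ) (Sel : ℕ → ℕ → Finset ℕ) (hg : ∀ k, 0 < g k) (hsub : ∀ k i, Sel k i ⊆ Finset.range (B k))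
    (hcard : ∀ k i, (Sel k i).card = g k) (k i : ℕ) :
    ∑ j ∈ Finset.Ico (i * B k) ((i + 1) * B k), mU B g Sel (k + 1) j = mU B g Sel k i := by
  classical
  rcases Nat.eq_zero_or_pos (B k) with h0 | hB
  · have h1 := hcard k i
    have h2 := hsub k i
    rw [h0, Finset.range_zero, Finset.subset_empty] at h2
    rw [h2, Finset.card_empty] at h1
    have := hg k
    omega
  have h1 : ∑ j ∈ Finset.Ico (i * B k) ((i + 1) * B k), mU B g Sel (k + 1) j =
      ∑ b ∈ Finset.range (B k), if b ∈ Sel k i then mU B g Sel k i / g k else 0 := by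
    rw [Finset.sum_Ico_eq_sum_range]
    have h2 : (i + 1) * B k - i * B k = B k := by
      rw [Nat.succ_mul]
      omega
    rw [h2]
    refine Finset.sum_congr rfl fun b hb => ?_
    have hb := Finset.mem_range.1 hb
    have h3 : (i * B k + b) % B k = b := by
      rw [Nat.mul_add_mod_self_right, Nat.mod_eq_of_lt hb]
    have h4 : (i * B k + b) / B k = i := by
      rw [Nat.mul_comm, Nat.mul_add_div hB, Nat.div_eq_of_lt hb, add_zero]
    rw [mU, h3, h4]
  rw [h1, ← Finset.sum_filter, Finset.filter_mem_eq_inter, Finset.inter_eq_right.2 (hsub k i), Finset.sum_const, hcard,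
    nsmul_eq_mul]
  have := hg k
  field_simp

open Classical in
theorem dim_homog (B : ℕ → ℕ) (ℓ p : ℕ → ℝ) (Good : ℕ → ℝ → Prop) (a₀ : ℝ) (hB : ∀ k, 1 ≤ B k) (hℓ0 : 0 < ℓ 0)
    (hℓ : ∀ k, ℓ (k + 1) = ℓ k / B k) (hℓt : Tendsto ℓ atTop (𝓝 0)) (hp : ∀ k, 0 < p k) (hp1 : ∀ k, p k ≤ 1)
    (h0 : Good 0 a₀)
    (hstep : ∀ k a, Good k a → p k * B k ≤ (((Finset.range (B k)).filter fun b : ℕ => Good (k + 1) (a + b * ℓ (k + 1))).card : ℝ))
    {s : ℝ} (hs : 0 < s) (hs1 : s < 1) (hC : ∃ C : ℝ, ∀ k, (∏ j ∈ Finset.range (k + 1), (p j)⁻¹) * ℓ k ^ (1 - s) ≤ C) :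
    ENNReal.ofReal s ≤ dimH {x | x ∈ Icc a₀ (a₀ + ℓ 0) ∧ ∀ k, ∃ a, Good k a ∧ x ∈ Icc a (a + ℓ k)} := by
  have hB0 : ∀ k, (0 : ℝ) < B k := fun k => by exact_mod_cast hB k
  have hpos : ∀ k, 0 < ℓ k := by
    intro k
    induction k with
    | zero => exact hℓ0
    | succ k ih => rw [hℓ]; exact div_pos ih (hB0 k)
  have hℓ' : ∀ k, ℓ k = ℓ (k + 1) * B k := fun k => by
    rw [hℓ, div_mul_cancel₀ _ (hB0 k).ne']
  -- the chosen children
  set g : ℕ → ℕ := fun k => ⌈p k * B k⌉₊ with hg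
  have hg0 : ∀ k, 0 < g k := fun k => Nat.ceil_pos.2 (mul_pos (hp k) (hB0 k))
  have hgB : ∀ k, g k ≤ B k := fun k => Nat.ceil_le.2 (by
    have := mul_le_mul_of_nonneg_right (hp1 k) (hB0 k).le
    linarith)
  have hgp : ∀ k, p k * B k ≤ g k := fun k => Nat.le_ceil _
  have hsel : ∀ k i : ℕ, ∃ S : Finset ℕ, S ⊆ Finset.range (B k) ∧ S.card = g k ∧
      (Good k (a₀ + i * ℓ k) → ∀ b ∈ S, Good (k + 1) (a₀ + (i * B k + b : ℕ) * ℓ (k + 1))) := by
    intro k i
    by_cases h : Good k (a₀ + i * ℓ k)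
    · have h1 : g k ≤ ((Finset.range (B k)).filter fun b : ℕ => Good (k + 1) (a₀ + i * ℓ k + b * ℓ (k + 1))).card :=
        Nat.ceil_le.2 (hstep k _ h)
      obtain ⟨S, hS1, hS2⟩ := Finset.exists_subset_card_eq h1
      refine ⟨S, hS1.trans (Finset.filter_subset _ _), hS2, fun _ b hb => ?_⟩
      have h2 := (Finset.mem_filter.1 (hS1 hb)).2
      have h3 : a₀ + ((i * B k + b : ℕ) : ℝ) * ℓ (k + 1) = a₀ + i * ℓ k + b * ℓ (k + 1) := by
        rw [hℓ' k]
        push_cast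
        ring
      rwa [h3]
    · exact ⟨Finset.range (g k), Finset.range_subset_range.2 (hgB k), Finset.card_range _, fun h' => absurd h' h⟩
  choose Sel hSub hCard hGood using hsel
  set T : Tr := trU B ℓ a₀ hB hpos hℓ' with hT
  set m := mU B g Sel with hm
  have hm0 : m 0 0 = 1 := by rw [hm, mU]; simp
  have hmn : ∀ k i, i < T.N k → 0 ≤ m k i := fun k i _ => mU_nonneg B g Sel k i
  have hsum : ∀ k i, i < T.N k → ∑ j ∈ T.ch k i, m (k + 1) j = m k i := fun k i _ =>
    mU_sum B g Sel hg0 hSub hCard k i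
  have hlen : ∀ k i, i < T.N k → T.len k i = ℓ k := by
    intro k i _
    show a₀ + ((i + 1 : ℕ) : ℝ) * ℓ k - (a₀ + (i : ℝ) * ℓ k) = ℓ k
    push_cast
    ring
  -- good cells
  have hgood : ∀ k i, 0 < m k i → Good k (a₀ + i * ℓ k) := by
    intro k
    induction k with
    | zero =>
      intro i hi
      have h1 : i = 0 := by
        by_contra h
        rw [hm, mU, if_neg h] at hi
        exact lt_irrefl _ hi
      rw [h1]
      simpa using h0
    | succ k ih =>
      intro j hj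
      rw [hm, mU] at hj
      split_ifs at hj with h
      · have h1 : 0 < mU B g Sel k (j / B k) := by
          rcases (mU_nonneg B g Sel k (j / B k)).eq_or_lt with h2 | h2
          · rw [← h2, zero_div] at hj
            exact absurd hj (lt_irrefl _)
          · exact h2
        have h2 := hGood k (j / B k) (ih _ h1) _ h
        rw [Nat.div_add_mod'] at h2
        exact h2
      · exact absurd hj (lt_irrefl _)
  -- masses
  set Q : ℕ → ℝ := fun k => ∏ j ∈ Finset.range k, (p j)⁻¹ with hQ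
  have hQ0 : ∀ k, 0 < Q k := fun k => Finset.prod_pos fun j _ => inv_pos.2 (hp j)
  have hmass : ∀ k i, m k i ≤ (Q k / ℓ 0) * ℓ k := by
    intro k
    induction k with
    | zero =>
      intro i
      rw [hm, mU, hQ]
      simp only [Finset.range_zero, Finset.prod_empty]
      rw [div_mul_cancel₀ _ hℓ0.ne']
      split_ifs <;> norm_num
    | succ k ih =>
      intro j
      rw [hm, mU]
      split_ifs
      · have h1 := ih (j / B k)
        rw [hm] at h1
        have h2 : (0 : ℝ) < g k := by exact_mod_cast hg0 k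
        rw [div_le_iff₀ h2]
        have h3 : Q (k + 1) = Q k * (p k)⁻¹ := Finset.prod_range_succ _ _
        calc mU B g Sel k (j / B k) ≤ Q k / ℓ 0 * ℓ k := h1
          _ = Q (k + 1) / ℓ 0 * ℓ (k + 1) * (p k * B k) := by
              rw [h3, hℓ' k]
              have := (hp k).ne'
              field_simp
          _ ≤ Q (k + 1) / ℓ 0 * ℓ (k + 1) * g k := by
              refine mul_le_mul_of_nonneg_left (hgp k) ?_
              have := hQ0 (k + 1)
              have := hpos (k + 1)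
              positivity
      · have := hQ0 (k + 1)
        have := hpos (k + 1)
        positivity
  obtain ⟨C, hC⟩ := hC
  refine mass_dist T m hm0 hmn hsum ℓ hpos hlen hℓt (fun k => Q k / ℓ 0) (fun k => (div_pos (hQ0 k) hℓ0).le)
    (fun k i _ => hmass k i) hs hs1 (C := C / ℓ 0) (fun k => ?_) _ fun w hw0 hw1 => ?_
  · have h1 := hC k
    calc Q (k + 1) / ℓ 0 * ℓ k ^ (1 - s) = (Q (k + 1) * ℓ k ^ (1 - s)) / ℓ 0 := by ring
      _ ≤ C / ℓ 0 := div_le_div_of_nonneg_right h1 hℓ0.le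
  · have hcell : ∀ k, pt T m w ∈ Icc (a₀ + (idx T m k w : ℝ) * ℓ k) (a₀ + (idx T m k w : ℝ) * ℓ k + ℓ k) := by
      intro k
      have h1 := pt_mem hm0 hmn hsum k hw0 hw1
      have h2 : T.cell k (idx T m k w) = Icc (a₀ + (idx T m k w : ℝ) * ℓ k) (a₀ + ((idx T m k w + 1 : ℕ) : ℝ) * ℓ k) := rfl
      rw [h2] at h1
      refine ⟨h1.1, h1.2.trans (le_of_eq ?_)⟩
      push_cast
      ring
    refine ⟨?_, fun k => ⟨_, hgood k _ (mass_pos hm0 hsum k hw0 hw1), hcell k⟩⟩
    have h1 := hcell 0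
    have h2 : idx T m 0 w = 0 := by
      have h3 := idx_lt (T := T) (m := m) 0 w
      have h4 : T.N 0 = 1 := T.hN
      omega
    rw [h2] at h1
    simpa using h1

end Pool.Agent.Helper89.LD
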